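import Pool.Agent.H63.AC.Stm
import Pool.Graph.R_seed8.TH814.GS.Stir

set_option autoImplicit false

namespace Pool.Agent.H791.AC

open Complex MeasureTheory Filter Topology Asymptotics Pool.Agent.H63.AC Pool.Agent.H401R2

/-- `f = 1 + O(1/t)` -/
def Q (f : ℝ → ℂ) : Prop := (fun t => f t - 1) =O[atTop] (fun t : ℝ => t⁻¹)

lemma inv_one : (fun t : ℝ => t⁻¹) =O[atTop] (fun _ : ℝ => (1 : ℝ)) := by
  refine IsBigO.of_bound 1 ?_
  filter_upwards [eventually_ge_atTop (1 : ℝ)] with t ht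
  rw [norm_inv, norm_one, one_mul, Real.norm_eq_abs, abs_of_pos (by linarith)]
  exact inv_le_one_of_one_le₀ ht

lemma Q.mul {f g : ℝ → ℂ} (hf : Q f) (hg : Q g) : Q (fun t => f t * g t) := by
  unfold Q at *
  have h1 : (fun t => f t * g t - 1) = fun t => (f t - 1) * (g t - 1) + (f t - 1) + (g t - 1) := by
    funext t; ring
  rw [h1]
  have h2 : (fun t => (f t - 1) * (g t - 1)) =O[atTop] (fun t : ℝ => t⁻¹) := by
    have h3 := hf.mul (hg.trans inv_one)
    simpa using h3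
  exact (h2.add hf).add hg

lemma Q.tendsto {f : ℝ → ℂ} (hf : Q f) : Tendsto f atTop (𝓝 1) := by
  have h1 : Tendsto (fun t => f t - 1) atTop (𝓝 0) := hf.trans_tendsto tendsto_inv_atTop_zero
  have h2 := h1.add_const 1
  simpa using h2

lemma Q.inv {f : ℝ → ℂ} (hf : Q f) : Q (fun t => (f t)⁻¹) := by
  have h0 := hf.tendsto
  have h1 : ∀ᶠ t in atTop, f t ≠ 0 := h0.eventually_ne one_ne_zero
  have h2 : Tendsto (fun t => (f t)⁻¹) atTop (𝓝 1) := by
    have := h0.inv₀ one_ne_zero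
    simpa using this
  have h3 : (fun t => (f t)⁻¹) =O[atTop] (fun _ : ℝ => (1 : ℝ)) := h2.isBigO_one ℝ
  have h4 : (fun t => (f t)⁻¹ * (f t - 1)) =O[atTop] (fun t : ℝ => t⁻¹) := by
    have := h3.mul hf
    simpa using this
  unfold Q
  refine h4.neg_left.congr' ?_ EventuallyEq.rfl
  filter_upwards [h1] with t ht
  field_simp
  ring

lemma Q.exp {f : ℝ → ℂ} (hf : f =O[atTop] (fun t : ℝ => t⁻¹)) : Q (fun t => cexp (f t)) := by
  have h0 : Tendsto f atTop (𝓝 0) := hf.trans_tendsto tendsto_inv_atTop_zero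
  have h1 : ∀ᶠ t in atTop, ‖f t‖ ≤ 1 := by
    have := h0.norm
    rw [norm_zero] at this
    exact this.eventually_le_const one_pos
  unfold Q
  refine IsBigO.trans (IsBigO.of_bound 2 ?_) hf
  filter_upwards [h1] with t ht
  exact norm_exp_sub_one_le ht

lemma logO (c s : ℂ) (hs : ‖s‖ = 1) :
    (fun t : ℝ => ((c + t * s) / 2 - 1 / 2) * log (1 + c / (t * s)) - c / 2) =O[atTop]
      (fun t : ℝ => t⁻¹) := by
  refine IsBigO.of_bound (‖c‖ ^ 2 + ‖c - 1‖ * ‖c‖) ?_
  filter_upwards [eventually_ge_atTop (1 : ℝ), eventually_ge_atTop (2 * ‖c‖)] with t h1 h2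
  have ht : 0 < t := by linarith
  have hs0 : s ≠ 0 := by
    intro h; rw [h, norm_zero] at hs; norm_num at hs
  have htc : (t : ℂ) ≠ 0 := by exact_mod_cast ht.ne'
  set w : ℂ := c / (t * s) with hw
  have hwn : ‖w‖ = ‖c‖ / t := by
    rw [hw, norm_div, norm_mul, hs, norm_real, Real.norm_eq_abs, abs_of_pos ht, mul_one]
  have hw2 : ‖w‖ ≤ 1 / 2 := by
    rw [hwn, div_le_div_iff₀ ht (by norm_num)]
    linarith
  have e1 : (t * s) / 2 * w = c / 2 := by
    rw [hw]; field_simp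
  have e2 : ((c + t * s) / 2 - 1 / 2) * log (1 + w) - c / 2 =
      (t * s) / 2 * (log (1 + w) - w) + (c - 1) / 2 * log (1 + w) := by
    rw [← e1]; ring
  rw [e2]
  have h3 : ‖log (1 + w) - w‖ ≤ ‖w‖ ^ 2 := by
    refine (Complex.norm_log_one_add_sub_self_le (by linarith)).trans ?_
    have h4 : (1 - ‖w‖)⁻¹ ≤ 2 := by
      rw [inv_le_comm₀ (by linarith) (by norm_num)]
      linarith
    nlinarith [sq_nonneg ‖w‖, norm_nonneg w]
  have h4 : ‖log (1 + w)‖ ≤ (3 / 2) * ‖w‖ := Complex.norm_log_one_add_half_le_self hw2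
  have h5 : ‖(t * s) / 2‖ = t / 2 := by
    rw [norm_div, norm_mul, hs, norm_real, Real.norm_eq_abs, abs_of_pos ht, mul_one]
    norm_num
  have h6 : ‖(c - 1) / 2‖ = ‖c - 1‖ / 2 := by
    rw [norm_div]
    norm_num
  rw [norm_inv, Real.norm_eq_abs, abs_of_pos ht]
  calc ‖(t * s) / 2 * (log (1 + w) - w) + (c - 1) / 2 * log (1 + w)‖
      ≤ ‖(t * s) / 2 * (log (1 + w) - w)‖ + ‖(c - 1) / 2 * log (1 + w)‖ := norm_add_le _ _
    _ ≤ t / 2 * ‖w‖ ^ 2 + ‖c - 1‖ / 2 * ((3 / 2) * ‖w‖) := by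
        rw [norm_mul, norm_mul, h5, h6]
        gcongr
    _ = (‖c‖ ^ 2 / 2 + (3 / 4) * (‖c - 1‖ * ‖c‖)) * t⁻¹ := by
        rw [hwn]; field_simp; ring
    _ ≤ (‖c‖ ^ 2 + ‖c - 1‖ * ‖c‖) * t⁻¹ := by
        refine mul_le_mul_of_nonneg_right ?_ (by positivity)
        have h7 : 0 ≤ ‖c‖ ^ 2 := by positivity
        have h8 : 0 ≤ ‖c - 1‖ * ‖c‖ := by positivity
        linarith

lemma stirQ (c s : ℂ) (hs : ‖s‖ = 1) (hr : ∀ t : ℝ, 0 ≤ ((c + t * s) / 2).re) :
    Q (fun t : ℝ => sA ((c + t * s) / 2) / ((√(2 * Real.pi) : ℝ) : ℂ)) := by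
  unfold Q
  refine IsBigO.of_bound 4 ?_
  filter_upwards [eventually_ge_atTop (4 : ℝ), eventually_ge_atTop (2 * ‖c‖)] with t h1 h2
  have ht : 0 < t := by linarith
  have h3 : t / 4 ≤ ‖(c + t * s) / 2‖ := by
    have h4 : ‖(t : ℂ) * s‖ = t := by
      rw [norm_mul, hs, norm_real, Real.norm_eq_abs, abs_of_pos ht, mul_one]
    have h5 : ‖(t : ℂ) * s‖ ≤ ‖c + t * s‖ + ‖c‖ := by
      have := norm_sub_le (c + t * s) c
      simpa using this
    rw [norm_div]
    have h6 : ‖(2 : ℂ)‖ = 2 := by norm_num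
    rw [h6]
    linarith
  have h4 := Pool.Agent.TH814.GS.stir_right (hr t) (by linarith)
  refine h4.trans ?_
  rw [norm_inv, Real.norm_eq_abs, abs_of_pos ht, ← div_eq_mul_inv,
    div_le_div_iff₀ (by linarith) ht]
  linarith

lemma log_eq (c s : ℂ) (hs : ‖s‖ = 1) (hi : |arg s| ≤ Real.pi / 2) {t : ℝ} (ht : ‖c‖ < t) :
    log ((c + t * s) / 2) = ((Real.log t - Real.log 2 : ℝ) : ℂ) + log s +
      log (1 + c / (t * s)) := by
  have ht0 : 0 < t := lt_of_le_of_lt (norm_nonneg _) ht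
  have hs0 : s ≠ 0 := by
    intro h; rw [h, norm_zero] at hs; norm_num at hs
  have htc : (t : ℂ) ≠ 0 := by exact_mod_cast ht0.ne'
  set w : ℂ := c / (t * s) with hw
  have hwn : ‖w‖ < 1 := by
    rw [hw, norm_div, norm_mul, hs, norm_real, Real.norm_eq_abs, abs_of_pos ht0, mul_one,
      div_lt_one ht0]
    exact ht
  have hre : 0 < (1 + w).re := by
    rw [add_re, one_re]
    have h1 := Complex.abs_re_le_norm w
    have h2 := neg_abs_le w.re
    linarith
  have hne : 1 + w ≠ 0 := by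
    intro h; rw [h] at hre; simp at hre
  have harg : |arg (1 + w)| < Real.pi / 2 := abs_arg_lt_pi_div_two_iff.2 (Or.inl hre)
  have him : (((Real.log t - Real.log 2 : ℝ) : ℂ) + log s + log (1 + w)).im =
      arg s + arg (1 + w) := by
    rw [add_im, add_im, ofReal_im, log_im, log_im, zero_add]
  have h1 := abs_le.1 hi
  have h2 := abs_lt.1 harg
  have h3 := Real.pi_pos
  rw [← Complex.log_exp (x := ((Real.log t - Real.log 2 : ℝ) : ℂ) + log s + log (1 + w))
    (by rw [him]; linarith) (by rw [him]; linarith)]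
  congr 1
  rw [Complex.exp_add, Complex.exp_add, exp_log hs0, exp_log hne, ← ofReal_exp, Real.exp_sub,
    Real.exp_log ht0, Real.exp_log (by norm_num)]
  rw [hw]
  push_cast
  field_simp
  ring

theorem t_gam0 : S_gam0 := by
  intro c c' A hc hc' hA
  -- the remainders
  set D1 : ℝ → ℂ := fun t => ((c + t * I) / 2 - 1 / 2) * log (1 + c / (t * I)) - c / 2 with hD1
  set D2 : ℝ → ℂ := fun t => ((c' + t * (-I)) / 2 - 1 / 2) * log (1 + c' / (t * (-I))) - c' / 2
    with hD2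
  have hI : ‖I‖ = 1 := norm_I
  have hI' : ‖-I‖ = 1 := by rw [norm_neg, norm_I]
  have o1 : D1 =O[atTop] (fun t : ℝ => t⁻¹) := logO c I hI
  have o2 : D2 =O[atTop] (fun t : ℝ => t⁻¹) := logO c' (-I) hI'
  have q3 : Q (fun t => cexp (D1 t - D2 t)) := Q.exp (o1.sub o2)
  have r1 : ∀ t : ℝ, 0 ≤ ((c + t * I) / 2).re := by
    intro t
    have h : ((c + t * I) / 2).re = c.re / 2 := by simp
    rw [h]; linarith
  have r2 : ∀ t : ℝ, 0 ≤ ((c' + t * (-I)) / 2).re := by
    intro t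
    have h : ((c' + t * (-I)) / 2).re = c'.re / 2 := by simp
    rw [h]; linarith
  have q1 := stirQ c I hI r1
  have q2 := stirQ c' (-I) hI' r2
  have q := (q1.mul q2.inv).mul q3
  set R : ℝ → ℂ := fun t => sA ((c + t * I) / 2) / ((√(2 * Real.pi) : ℝ) : ℂ) *
    (sA ((c' + t * (-I)) / 2) / ((√(2 * Real.pi) : ℝ) : ℂ))⁻¹ * cexp (D1 t - D2 t) with hR
  set C : ℂ := cexp (-((A * Real.log 2 : ℝ) : ℂ) + (Real.pi / 2 * I) * ((c + c') / 2 - 1)) with hC
  have key : ∀ᶠ t : ℝ in atTop, Gamma ((c + t * I) / 2) / Gamma ((c' - t * I) / 2) =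
      C * ((t ^ A : ℝ) : ℂ) * cexp (I * ((t * Real.log t - (1 + Real.log 2) * t : ℝ) : ℂ)) *
        R t := by
    filter_upwards [eventually_gt_atTop (0 : ℝ), eventually_gt_atTop ‖c‖,
      eventually_gt_atTop ‖c'‖] with t ht h1 h2
    have e0 : (c' - t * I) / 2 = (c' + t * (-I)) / 2 := by ring
    have g : ∀ z : ℂ, Gamma z = sA z * cexp ((z - 1 / 2) * log z - z) := by
      intro z
      unfold sA
      rw [mul_assoc, ← Complex.exp_add]
      simp
    rw [e0, g ((c + t * I) / 2), g ((c' + t * (-I)) / 2)]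
    have l1 := log_eq c I hI (by rw [arg_I, abs_of_pos (by positivity)]) h1
    have l2 := log_eq c' (-I) hI' (by rw [arg_neg_I, abs_neg, abs_of_pos (by positivity)]) h2
    have d1 : log (1 + c / (t * I)) = log ((c + t * I) / 2) -
        ((Real.log t - Real.log 2 : ℝ) : ℂ) - log I := by rw [l1]; ring
    have d2 : log (1 + c' / (t * (-I))) = log ((c' + t * (-I)) / 2) -
        ((Real.log t - Real.log 2 : ℝ) : ℂ) - log (-I) := by rw [l2]; ring
    have hs := Pool.Agent.TH814.GS.sqrt_ne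
    have hpow : ((t ^ A : ℝ) : ℂ) = cexp ((Real.log t * A : ℝ) : ℂ) := by
      rw [Real.rpow_def_of_pos ht, ofReal_exp]
    rw [hR, hC, hpow]
    simp only [hD1, hD2]
    rw [d1, d2, log_I, log_neg_I]
    have hcc : c = c' + ((2 * A : ℝ) : ℂ) := by rw [← hA]; ring
    have e3 : ∀ a b x y s : ℂ, s ≠ 0 → a * cexp x / (b * cexp y) =
        (a / s * (b / s)⁻¹) * cexp (x - y) := by
      intro a b x y s hs0
      rw [Complex.exp_sub]
      have := Complex.exp_ne_zero y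
      by_cases hb : b = 0
      · simp [hb]
      field_simp
    rw [e3 _ _ _ _ _ hs]
    have e4 : ∀ x1 x2 x3 x4 u : ℂ, cexp x1 * cexp x2 * cexp x3 * (u * cexp x4) =
        u * cexp (x1 + x2 + x3 + x4) := by
      intro x1 x2 x3 x4 u
      rw [Complex.exp_add, Complex.exp_add, Complex.exp_add]; ring
    rw [e4]
    congr 2
    rw [hcc]
    push_cast
    ring_nf
  -- conclusion
  have hfin : (fun t : ℝ => Gamma ((c + t * I) / 2) / Gamma ((c' - t * I) / 2) -
      C * ((t ^ A : ℝ) : ℂ) * cexp (I * ((t * Real.log t - (1 + Real.log 2) * t : ℝ) : ℂ)))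
      =O[atTop] (fun t : ℝ => t ^ (A - 1)) := by
    have h1 : (fun t : ℝ => C * ((t ^ A : ℝ) : ℂ) *
        cexp (I * ((t * Real.log t - (1 + Real.log 2) * t : ℝ) : ℂ)) * (R t - 1)) =O[atTop]
        (fun t : ℝ => t ^ A * t⁻¹) := by
      refine IsBigO.mul ?_ q
      refine IsBigO.of_bound ‖C‖ ?_
      filter_upwards with t
      rw [norm_mul, norm_mul, norm_real, mul_comm I, norm_exp_ofReal_mul_I, mul_one]
    refine h1.congr' ?_ ?_
    · filter_upwards [key] with t ht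
      rw [ht]; ring
    · filter_upwards [eventually_gt_atTop (0 : ℝ)] with t ht
      rw [Real.rpow_sub_one ht.ne', div_eq_mul_inv]
  obtain ⟨K, hK⟩ := hfin.bound
  obtain ⟨t0, ht0⟩ := (hK.and (eventually_ge_atTop (1 : ℝ))).exists_forall_of_atTop
  refine ⟨C, K, max t0 1, le_max_right _ _, fun t ht => ?_⟩
  have h1 := (ht0 t ((le_max_left _ _).trans ht)).1
  have h2 : 0 < t := lt_of_lt_of_le one_pos ((le_max_right _ _).trans ht)
  rw [Real.norm_eq_abs, abs_of_pos (Real.rpow_pos_of_pos h2 _)] at h1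
  exact h1

end Pool.Agent.H791.AC
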